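import Pool.Agent.TH930.LT.Avg2
import Pool.Agent.N905.EX.Law

set_option autoImplicit false

/-! The average number of steps of the map on the odd integers until the passage below `x^θ`, with an
explicit truncation. -/

namespace Pool.Agent.Results.MP_2b866c_nt.AverageExplicit

open Filter Topology Pool.Agent.N905.EX

/-- `C(m) = (3m+1)/2^e(m)`, `2^e(m)` the largest power of `2` dividing `3m+1` -/
def C (m : ℕ) : ℕ := (3 * m + 1) / 2 ^ padicValNat 2 (3 * m + 1)

/-- `min (h, L)`, where `h` is the least `k ≥ 0` with `C^k(m) ≤ y`, and `h = ∞` if there is none -/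
noncomputable def truncHeight (y : ℝ) (m L : ℕ) : ℕ := sInf {k : ℕ | ((C^[k] m : ℕ) : ℝ) ≤ y ∨ L ≤ k}

/-- For all `0 < θ < 1`, `κ > 0` and all natural numbers `r` with `κ r < 0.06 θ`: the average over the odd
`m ≤ x` of the `r`-th power of `min (h, x^κ)`, `h` the number of steps from `m` to the first value
`≤ x^θ`, is asymptotic to `((1-θ) (2 / log (16/9)) log x)^r`. -/
theorem result (θ κ : ℝ) (r : ℕ) (hθ0 : 0 < θ) (hθ1 : θ < 1) (hκ : 0 < κ) (hκr : κ * r < 6 / 100 * θ) :
    Tendsto (fun x : ℝ => (2 / x * ∑ m ∈ (Finset.Icc 1 ⌊x⌋₊).filter (fun m => m % 2 = 1),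
        (truncHeight (x ^ θ) m ⌊x ^ κ⌋₊ : ℝ) ^ r) / Real.log x ^ r) atTop
        (𝓝 (((1 - θ) * (2 / Real.log (16 / 9))) ^ r)) := by
  have h43 : 0 < Real.log (4 / 3) := Real.log_pos (by norm_num)
  have e169 : Real.log (16 / 9) = 2 * Real.log (4 / 3) := by
    rw [show (16 : ℝ) / 9 = (4 / 3) ^ 2 by norm_num, Real.log_pow]; push_cast; ring
  obtain ⟨a, C₁, ha0, -, hC₁, hQ⟩ := card_Ps
  have e94 : (1 : ℝ) - 6 / 100 = 94 / 100 := by norm_num
  obtain ⟨K, hK, h⟩ := time_law (c := 6 / 100) (B := 2 / a) ha0 hC₁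
    (fun i => by rw [e94]; exact hQ i)
    (by positivity) (by rw [div_mul_cancel₀ _ ha0.ne']; norm_num) (by norm_num) (by norm_num)
  have h1 := Pool.Agent.TH930.LT.avg (c := 6 / 100) (C := K) (B := 2 / a)
    (by positivity) hK.le h hθ0 hθ1 hκ hκr
  have e : (1 - θ) / Real.log (4 / 3) = (1 - θ) * (2 / Real.log (16 / 9)) := by
    rw [e169]; field_simp
  rw [e] at h1
  exact h1

end Pool.Agent.Results.MP_2b866c_nt.AverageExplicit
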