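import Pool.Agent.N685.FT.Gen2
import Pool.Agent.N685.FT.Ht

/-!
The number of odd integers up to `x` with a given height, uniformly for all heights up to the
conjectured mean value `log x / log (4/3) = 2 log x / log (16/9)`.
-/

set_option autoImplicit false

namespace Pool.Agent.Results.MP_2b866c_nt.HeightCountsToTheMean

/-- `C(m) = (3m+1)/2^e(m)`, `2^e(m)` the largest power of `2` dividing `3m+1` -/
def C (m : ℕ) : ℕ := (3 * m + 1) / 2 ^ padicValNat 2 (3 * m + 1)

/-- `h` is the height of `m`: the least `k ≥ 1` with `C^k(m) = 1` (so it is finite) -/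
def IsHeight (m h : ℕ) : Prop := IsLeast {k : ℕ | 1 ≤ k ∧ C^[k] m = 1} h

/-- the number of odd integers `1 ≤ m ≤ x` with `h(m) = k` -/
noncomputable def N (x : ℝ) (k : ℕ) : ℕ := {m : ℕ | m % 2 = 1 ∧ (m : ℝ) ≤ x ∧ IsHeight m k}.ncard

/-- `S(β) = (1 + β log 3) / log 2` -/
noncomputable def S (β : ℝ) : ℝ := (1 + β * Real.log 3) / Real.log 2

/-- `e(β) = S(β) H(β / S(β)) - β log 3`, where `H` is the binary entropy function -/
noncomputable def e (β : ℝ) : ℝ := S β * Real.binEntropy (β / S β) - β * Real.log 3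

/-- For every `ε > 0`, for all large `x` and uniformly in the integers `1 ≤ k ≤ 2 log x / log (16/9)`,
the number of odd `m ≤ x` of height exactly `k` is between `x^(e(k / log x) - ε)` and
`x^(e(k / log x) + ε)`; here `0 < e(β) < 1` for `0 < β < 2 / log (16/9)`, and
`e(2 / log (16/9)) = 1`. -/
theorem result :
    (∀ ε : ℝ, 0 < ε → ∃ X₀ : ℝ, ∀ x : ℝ, X₀ ≤ x → ∀ k : ℕ, 1 ≤ k →
      (k : ℝ) ≤ 2 * Real.log x / Real.log (16 / 9) →
      x ^ (e (k / Real.log x) - ε) ≤ (N x k : ℝ) ∧ (N x k : ℝ) ≤ x ^ (e (k / Real.log x) + ε)) ∧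
    (∀ β : ℝ, 0 < β → β < 2 / Real.log (16 / 9) → 0 < e β ∧ e β < 1) ∧
    e (2 / Real.log (16 / 9)) = 1 := by
  have hl2 : 0 < Real.log 2 := Real.log_pos (by norm_num)
  have hl3 : 0 < Real.log 3 := Real.log_pos (by norm_num)
  have h43 : 0 < Real.log (4 / 3) := Real.log_pos (by norm_num)
  have e169 : Real.log (16 / 9) = 2 * Real.log (4 / 3) := by
    rw [show (16 / 9 : ℝ) = (4 / 3) ^ 2 by norm_num, Real.log_pow]
    norm_num
  have hB : 2 / Real.log (16 / 9) = 1 / Real.log (4 / 3) := by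
    rw [e169]
    field_simp
  refine ⟨?_, ?_, ?_⟩
  · intro ε hε
    obtain ⟨X₀, _, h⟩ := Pool.Agent.N685.FT.main_heights Pool.Agent.N685.FT.gen_main hε
    refine ⟨X₀, fun x hx k hk hk2 => h x hx k hk ?_⟩
    rw [← hB]
    refine hk2.trans (le_of_eq ?_)
    ring
  · intro β h0 h1
    rw [hB] at h1
    obtain ⟨g1, g2⟩ := Pool.Agent.N685.FT.SS_rho_half h0 h1.le
    have hS := Pool.Agent.Y966.LD.SS_pos h0.le
    have h3 : e β = Pool.Agent.Y966.LD.SS β *
        Pool.Agent.H395R2.G3.FF (β / Pool.Agent.Y966.LD.SS β) :=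
      Pool.Agent.Y966.LD.ee_eq h0.le
    constructor
    · rw [h3]
      exact mul_pos hS (Pool.Agent.H395R2.G3.FF_pos_of g1
        (lt_of_le_of_lt g2 Pool.Agent.N685.FT.half_lt) (by norm_num) Pool.Agent.H395R2.G3.FF_low.le)
    · -- `H(ρ) < log 2` for `ρ < 1/2`
      have g3 : β / Pool.Agent.Y966.LD.SS β < 1 / 2 := by
        rw [div_lt_iff₀ hS]
        rw [lt_div_iff₀ h43, Pool.Agent.N685.FT.log43] at h1
        unfold Pool.Agent.Y966.LD.SS
        have : 1 / 2 * ((1 + β * Real.log 3) / Real.log 2) =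
            (1 + β * Real.log 3) / (2 * Real.log 2) := by
          field_simp
        rw [this, lt_div_iff₀ (by positivity)]
        linarith
      have g4 : Real.binEntropy (β / Pool.Agent.Y966.LD.SS β) < Real.log 2 :=
        Real.binEntropy_lt_log_two.2 (by
          intro h
          rw [h] at g3
          norm_num at g3)
      have g5 : e β = Pool.Agent.Y966.LD.SS β *
          Real.binEntropy (β / Pool.Agent.Y966.LD.SS β) - β * Real.log 3 := rfl
      rw [g5]
      have g6 : Pool.Agent.Y966.LD.SS β * Real.log 2 = 1 + β * Real.log 3 := by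
        unfold Pool.Agent.Y966.LD.SS
        field_simp
      have g7 := mul_lt_mul_of_pos_left g4 hS
      linarith
  · rw [hB]
    have g1 : S (1 / Real.log (4 / 3)) = 2 / Real.log (4 / 3) := by
      unfold S
      have h5 := Pool.Agent.N685.FT.log43
      have h6 : 1 + 1 / Real.log (4 / 3) * Real.log 3 = 2 * Real.log 2 / Real.log (4 / 3) := by
        field_simp
        linarith
      rw [h6]
      field_simp
    unfold e
    rw [g1]
    have g2 : 1 / Real.log (4 / 3) / (2 / Real.log (4 / 3)) = 2⁻¹ := by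
      field_simp
    rw [g2, Real.binEntropy_two_inv]
    have h5 := Pool.Agent.N685.FT.log43
    field_simp
    linarith

end Pool.Agent.Results.MP_2b866c_nt.HeightCountsToTheMean
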