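import Pool.Agent.TH237.AV.Bridge
import Pool.Agent.TH930.LT.Avg2
import Pool.Agent.N905.EX.Law

set_option autoImplicit false

/-! The average number of steps of the map on the odd integers until the first value `≤ y`, truncated at a
power of `y`, with a bounded error. -/

namespace Pool.Agent.Results.MP_2b866c_nt.PowerTruncation

open Finset Pool.Agent.N905.EX

/-- `C(m) = (3m+1)/2^e(m)`, `2^e(m)` the largest power of `2` dividing `3m+1` -/
def C (m : ℕ) : ℕ := (3 * m + 1) / 2 ^ padicValNat 2 (3 * m + 1)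

/-- `min (h, L)`, where `h` is the least `k ≥ 0` with `C^k(m) ≤ y`, and `h = ∞` if there is none -/
noncomputable def truncPassage (y : ℝ) (m L : ℕ) : ℕ := sInf {k : ℕ | ((C^[k] m : ℕ) : ℝ) ≤ y ∨ L ≤ k}

/-- the odd integers `1 ≤ m ≤ x` -/
noncomputable def odds (x : ℝ) : Finset ℕ := (Icc 1 ⌊x⌋₊).filter fun m => m % 2 = 1

theorem passage_eq : truncPassage = Pool.Agent.TH237.AV.Br.truncPassage := rfl

theorem odds_eq : odds = Pool.Agent.TH237.AV.Br.odds := rfl

theorem hit_eq : truncPassage = Pool.Agent.TH930.LT.hit := rfl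

theorem log_pow_le {δ : ℝ} (hδ : 0 < δ) (n : ℕ) : ∃ E : ℝ, 0 < E ∧ ∀ y : ℝ, 1 ≤ y →
    Real.log y ^ n ≤ E * y ^ δ := by
  set ε := δ / (n + 1) with hε
  have hε0 : 0 < ε := by positivity
  refine ⟨(1 / ε) ^ n, by positivity, fun y hy => ?_⟩
  have h1 : Real.log y ≤ y ^ ε / ε := Real.log_le_rpow_div (by linarith) hε0
  have h2 : Real.log y ^ n ≤ (y ^ ε / ε) ^ n := pow_le_pow_left₀ (Real.log_nonneg hy) h1 n
  refine h2.trans ?_
  rw [div_pow, ← Real.rpow_natCast (y ^ ε) n, ← Real.rpow_mul (by linarith), div_eq_mul_inv, mul_comm,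
    one_div, inv_pow]
  apply mul_le_mul_of_nonneg_left _ (by positivity)
  apply Real.rpow_le_rpow_of_exponent_le hy
  rw [hε, div_mul_eq_mul_div, div_le_iff₀ (by positivity)]
  nlinarith

open scoped Classical in
/-- pointwise comparison of two truncations -/
theorem trunc_le {b x y : ℝ} {m L M : ℕ} (hb : 0 ≤ b) (hm : m % 2 = 1) (hmx : (m : ℝ) ≤ x)
    (hM : b * Real.log x ≤ M) :
    (truncPassage y m L : ℝ) ≤ truncPassage y m M +
      (if Pool.Agent.TH930.LT.timeBad b y m then (L : ℝ) else 0) := by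
  by_cases h : Pool.Agent.TH930.LT.timeBad b y m
  · rw [if_pos h]
    have h1 : truncPassage y m L ≤ L := Nat.sInf_le (Or.inr le_rfl)
    have h2 : (truncPassage y m L : ℝ) ≤ L := by exact_mod_cast h1
    have h3 : (0 : ℝ) ≤ truncPassage y m M := Nat.cast_nonneg _
    linarith
  · rw [if_neg h, add_zero]
    have h1 : (truncPassage y m L : ℝ) ≤ b * Real.log m := by
      rw [hit_eq]
      exact Pool.Agent.TH930.LT.hit_le_of_time (L := L) hb hm h
    have h2 : b * Real.log m ≤ b * Real.log x := by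
      apply mul_le_mul_of_nonneg_left _ hb
      exact Real.log_le_log (by exact_mod_cast (show 0 < m by omega)) hmx
    have h3 : truncPassage y m L ≤ M := by
      have : (truncPassage y m L : ℝ) ≤ (M : ℝ) := by linarith
      exact_mod_cast this
    have h4 : truncPassage y m M ∈ {k : ℕ | ((C^[k] m : ℕ) : ℝ) ≤ y ∨ M ≤ k} :=
      Nat.sInf_mem ⟨M, Or.inr le_rfl⟩
    have h5 : truncPassage y m L ≤ truncPassage y m M := by
      rcases h4 with h4 | h4
      · exact Nat.sInf_le (Or.inl h4)
      · exact h3.trans h4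
    exact_mod_cast h5

/-- Write `c = 2 / log (16/9)`. For every `Λ > c`, every `K` and every `κ < 0.06` there is `B` such that for
all `1 ≤ y ≤ x` with `log x ≤ (log y)^K` and all integers `L` with `Λ log x ≤ L ≤ y^κ`: the average over the
odd `m ≤ x` of `min (h_y(m), L)`, `h_y(m)` the number of steps from `m` to the first value `≤ y`, differs
from `c log (x/y)` by at most `B`. -/
theorem result (Λ κ : ℝ) (K : ℕ) (hΛ : 2 / Real.log (16 / 9) < Λ) (hκ : κ < 6 / 100) :
    ∃ B : ℝ, ∀ (x y : ℝ) (L : ℕ), 1 ≤ y → y ≤ x → Real.log x ≤ Real.log y ^ K →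
      Λ * Real.log x ≤ L → (L : ℝ) ≤ y ^ κ →
      |2 / x * ∑ m ∈ odds x, (truncPassage y m L : ℝ) - 2 / Real.log (16 / 9) * Real.log (x / y)| ≤ B := by
  classical
  obtain ⟨B₁, hB₁, hlow⟩ := Pool.Agent.TH237.AV.Br.lower hΛ
  obtain ⟨B₂, hB₂, hup⟩ := Pool.Agent.TH237.AV.Br.upper (K + 1)
  rw [← passage_eq, ← odds_eq] at hlow hup
  obtain ⟨a, C₁, ha0, -, hC₁, hQ⟩ := card_Ps
  have e94 : (1 : ℝ) - 6 / 100 = 94 / 100 := by norm_num
  obtain ⟨D, hD, hlaw⟩ := time_law (c := 6 / 100) (B := 2 / a) ha0 hC₁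
    (fun i => by rw [e94]; exact hQ i)
    (by positivity) (by rw [div_mul_cancel₀ _ ha0.ne']; norm_num) (by norm_num) (by norm_num)
  set b : ℝ := 2 / a with hb
  have hb0 : 0 < b := by positivity
  set c : ℝ := 2 / Real.log (16 / 9) with hc
  have hc0 : 0 < c := div_pos (by norm_num) (Real.log_pos (by norm_num))
  set β : ℝ := max b Λ with hβ
  have hβb : b ≤ β := le_max_left _ _
  have hβΛ : Λ ≤ β := le_max_right _ _
  have hβ0 : 0 < β := hb0.trans_le hβb
  obtain ⟨E, hE, hlogE⟩ := log_pow_le (δ := 6 / 100 - κ) (by linarith) (3 * K)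
  set Y₀ : ℝ := Real.exp (β + 1) with hY₀
  have hY₀0 : 0 < Y₀ := Real.exp_pos _
  refine ⟨(2 * Y₀ + c * (β + 1) ^ K) + (B₁ + (B₂ + 2 * D * E)), fun x y L hy hyx hxy hL hLκ => ?_⟩
  have hx1 : 1 ≤ x := hy.trans hyx
  have hx0 : 0 < x := by linarith
  have hy0 : 0 < y := by linarith
  have hlx : 0 ≤ Real.log x := Real.log_nonneg hx1
  have hly : 0 ≤ Real.log y := Real.log_nonneg hy
  have elog : Real.log (x / y) = Real.log x - Real.log y := Real.log_div hx0.ne' hy0.ne'
  set S : ℝ := 2 / x * ∑ m ∈ odds x, (truncPassage y m L : ℝ) with hS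
  have hS0 : 0 ≤ S := by positivity
  have hP1 : 0 ≤ 2 * Y₀ + c * (β + 1) ^ K := by positivity
  have hP2 : 0 ≤ 2 * D * E := by positivity
  have hlow' := hlow x y L hy hx1 hL
  rw [← hS] at hlow'
  by_cases hcase : Real.log y < β + 1
  · -- small `y`
    have hyY : y ≤ Y₀ := by
      rw [hY₀]
      exact ((Real.log_lt_iff_lt_exp hy0).1 hcase).le
    have hLy : (L : ℝ) ≤ Y₀ := by
      refine hLκ.trans (le_trans ?_ hyY)
      calc y ^ κ ≤ y ^ (1 : ℝ) := Real.rpow_le_rpow_of_exponent_le hy (by linarith)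
        _ = y := Real.rpow_one y
    have hsum : ∑ m ∈ odds x, (truncPassage y m L : ℝ) ≤ x * Y₀ := by
      calc ∑ m ∈ odds x, (truncPassage y m L : ℝ) ≤ ∑ m ∈ odds x, Y₀ := by
            apply sum_le_sum
            intro m _
            have h1 : truncPassage y m L ≤ L := Nat.sInf_le (Or.inr le_rfl)
            have h2 : (truncPassage y m L : ℝ) ≤ L := by exact_mod_cast h1
            linarith
        _ = (odds x).card * Y₀ := by rw [sum_const, nsmul_eq_mul]
        _ ≤ x * Y₀ := by
            apply mul_le_mul_of_nonneg_right _ hY₀0.le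
            have h1 : (odds x).card ≤ ⌊x⌋₊ := by
              refine (card_filter_le _ _).trans ?_
              rw [Nat.card_Icc]; omega
            exact le_trans (by exact_mod_cast h1) (Nat.floor_le hx0.le)
    have hSup : S ≤ 2 * Y₀ := by
      rw [hS]
      calc 2 / x * ∑ m ∈ odds x, (truncPassage y m L : ℝ) ≤ 2 / x * (x * Y₀) :=
            mul_le_mul_of_nonneg_left hsum (by positivity)
        _ = 2 * Y₀ := by field_simp
    have h1 : Real.log (x / y) ≤ (β + 1) ^ K := by
      rw [elog]
      calc Real.log x - Real.log y ≤ Real.log x := by linarith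
        _ ≤ Real.log y ^ K := hxy
        _ ≤ (β + 1) ^ K := pow_le_pow_left₀ hly hcase.le K
    have h2 : 0 ≤ Real.log (x / y) := by
      rw [elog]
      have := Real.log_le_log hy0 hyx
      linarith
    have h3 : c * Real.log (x / y) ≤ c * (β + 1) ^ K := mul_le_mul_of_nonneg_left h1 hc0.le
    have h4 : 0 ≤ c * Real.log (x / y) := mul_nonneg hc0.le h2
    rw [abs_le]
    constructor <;> linarith
  · rw [not_lt] at hcase
    have hly1 : 1 ≤ Real.log y := by linarith
    have hx2 : 2 ≤ x := by
      have h1 : Real.exp 1 ≤ y := by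
        rw [← Real.exp_log hy0]
        exact Real.exp_le_exp.2 hly1
      have h2 := Real.add_one_le_exp (1 : ℝ)
      linarith
    set M : ℕ := ⌈β * Real.log x⌉₊ with hM
    have hM1 : β * Real.log x ≤ M := Nat.le_ceil _
    have hM2 : (M : ℝ) < β * Real.log x + 1 := Nat.ceil_lt_add_one (by positivity)
    have hMy : (M : ℝ) ≤ Real.log y ^ (K + 1) := by
      have h1 : (1 : ℝ) ≤ Real.log y ^ K := one_le_pow₀ hly1
      have h2 : β * Real.log x ≤ β * Real.log y ^ K := mul_le_mul_of_nonneg_left hxy hβ0.le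
      have h3 : (β + 1) * Real.log y ^ K ≤ Real.log y * Real.log y ^ K :=
        mul_le_mul_of_nonneg_right hcase (by linarith)
      rw [pow_succ]
      nlinarith
    have hclog : c * Real.log x ≤ Λ * Real.log x := mul_le_mul_of_nonneg_right hΛ.le hlx
    have hΛβ : Λ * Real.log x ≤ β * Real.log x := mul_le_mul_of_nonneg_right hβΛ hlx
    have hSup : S ≤ c * (Real.log x - Real.log y) + (B₂ + 2 * D * E) := by
      by_cases hLM : L ≤ M
      · have h1 := hup x y L hy hyx (hclog.trans hL) (le_trans (by exact_mod_cast hLM) hMy)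
        rw [← hS] at h1
        linarith
      · have h1 := hup x y M hy hyx (hclog.trans (hΛβ.trans hM1)) hMy
        have hbM : b * Real.log x ≤ M := (mul_le_mul_of_nonneg_right hβb hlx).trans hM1
        have h2 : ∑ m ∈ odds x, (truncPassage y m L : ℝ) ≤
            ∑ m ∈ odds x, (truncPassage y m M : ℝ) +
              ((odds x).filter fun m => Pool.Agent.TH930.LT.timeBad b y m).card * (L : ℝ) := by
          rw [← nsmul_eq_mul, ← sum_const, sum_filter, ← sum_add_distrib]
          apply sum_le_sum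
          intro m hm
          rw [odds, mem_filter, mem_Icc, Nat.le_floor_iff hx0.le] at hm
          exact trunc_le hb0.le hm.2 hm.1.2 hbM
        have h3 : (((odds x).filter fun m => Pool.Agent.TH930.LT.timeBad b y m).card : ℝ) ≤
            D * (Real.log x) ^ 3 * (x / y ^ (6 / 100 : ℝ)) := by
          refine le_trans ?_ (hlaw x y hx2 hy)
          have hfin : {n : ℕ | 1 ≤ n ∧ (n : ℝ) ≤ x ∧ Pool.Agent.TH930.LT.timeBad b y n}.Finite := by
            apply (Set.finite_Iic ⌊x⌋₊).subset
            rintro n ⟨-, h2, -⟩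
            exact Nat.le_floor h2
          rw [← Set.ncard_coe_finset]
          have hsub : (((odds x).filter fun m => Pool.Agent.TH930.LT.timeBad b y m : Finset ℕ) : Set ℕ) ⊆
              {n : ℕ | 1 ≤ n ∧ (n : ℝ) ≤ x ∧ Pool.Agent.TH930.LT.timeBad b y n} := by
            intro n hn
            rw [mem_coe, mem_filter, odds, mem_filter, mem_Icc, Nat.le_floor_iff hx0.le] at hn
            exact ⟨hn.1.1.1, hn.1.1.2, hn.2⟩
          exact_mod_cast Set.ncard_le_ncard hsub hfin
        have h4 : 2 / x * ((((odds x).filter fun m => Pool.Agent.TH930.LT.timeBad b y m).card : ℝ) * L) ≤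
            2 * D * E := by
          have hlx3 : Real.log x ^ 3 ≤ Real.log y ^ (3 * K) := by
            rw [mul_comm, pow_mul]
            exact pow_le_pow_left₀ hlx hxy 3
          have hlogy := hlogE y hy
          have hyp : 0 < y ^ (6 / 100 : ℝ) := Real.rpow_pos_of_pos hy0 _
          have hyk : 0 < y ^ κ := Real.rpow_pos_of_pos hy0 _
          calc 2 / x * ((((odds x).filter fun m => Pool.Agent.TH930.LT.timeBad b y m).card : ℝ) * L)
              ≤ 2 / x * ((D * (Real.log x) ^ 3 * (x / y ^ (6 / 100 : ℝ))) * y ^ κ) := by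
                apply mul_le_mul_of_nonneg_left _ (by positivity)
                exact mul_le_mul h3 hLκ (Nat.cast_nonneg _) (by positivity)
            _ = 2 * D * (Real.log x ^ 3 * (y ^ κ / y ^ (6 / 100 : ℝ))) := by field_simp
            _ = 2 * D * (Real.log x ^ 3 * y ^ (κ - 6 / 100)) := by rw [Real.rpow_sub hy0]
            _ ≤ 2 * D * ((E * y ^ (6 / 100 - κ)) * y ^ (κ - 6 / 100)) := by
                apply mul_le_mul_of_nonneg_left _ (by positivity)
                exact mul_le_mul_of_nonneg_right (hlx3.trans hlogy) (by positivity)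
            _ = 2 * D * E := by
                rw [mul_assoc E, ← Real.rpow_add hy0, show 6 / 100 - κ + (κ - 6 / 100) = 0 by ring,
                  Real.rpow_zero, mul_one]
        have h5 : S ≤ 2 / x * ∑ m ∈ odds x, (truncPassage y m M : ℝ) +
            2 / x * ((((odds x).filter fun m => Pool.Agent.TH930.LT.timeBad b y m).card : ℝ) * L) := by
          rw [hS, ← mul_add]
          exact mul_le_mul_of_nonneg_left h2 (by positivity)
        linarith
    rw [elog, abs_le]
    constructor <;> linarith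

end Pool.Agent.Results.MP_2b866c_nt.PowerTruncation
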