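import Mathlib
import Pool.Agent.N909.CM.Avg

set_option autoImplicit false

/-!
# The average height in random Collatz maps

A random Collatz map decides for every integer `n`, one after the other, whether `n` goes up to
`⌊(3n+1)/2⌋` (the integers going up play the role of the odd integers) or down to `⌊n/2⌋`; we only assume
that the conditional probability of going up, given the earlier decisions, tends to `1/2` (no
independence, no rate).  Almost surely all trajectories of this one map are finite, the height (the number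
of integers going up on the trajectory) has normal order `2 log n / log (16/9)`, and the average order
`H(x)` of the height over the integers going up is asymptotic to `2 log x / log (16/9)`.
-/

open MeasureTheory Filter
open scoped Topology

namespace Pool.Agent.Results.MP_2b866c_nt.RandomMaps

/-- the Collatz map in which the elements of `S` go up -/
noncomputable def colT (S : Set ℕ) (n : ℕ) : ℕ :=
  open Classical in if n ∈ S then (3 * n + 1) / 2 else n / 2

/-- the trajectory of `n` -/
def traj (S : Set ℕ) (n : ℕ) : Set ℕ := Set.range (fun i => (colT S)^[i] n)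

/-- the height of `n`: the number of elements of `S` on its trajectory -/
noncomputable def height (S : Set ℕ) (n : ℕ) : ℕ := (traj S n ∩ S).ncard

/-- the average order of the height over the elements of `S` -/
noncomputable def HH (S : Set ℕ) (x : ℝ) : ℝ :=
  open Classical in 2 / x * ∑ m ∈ (Finset.Icc 1 ⌊x⌋₊).filter (· ∈ S), (height S m : ℝ)

open Pool.Agent.R528.RM Pool.Agent.N909.CM

variable {Ω : Type} {B : ℕ → Set Ω}

lemma colT_eq (ω : Ω) : colT {n | ω ∈ B n} = T B ω := by
  funext n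
  unfold colT T
  simp only [Set.mem_ofPred_eq]

lemma traj_eq (ω : Ω) (n : ℕ) : traj {n | ω ∈ B n} n = orb (T B ω) n := by
  unfold traj orb
  rw [colT_eq]

lemma height_eq (ω : Ω) (n : ℕ) : height {n | ω ∈ B n} n = hgt B ω n := by
  unfold height hgt
  rw [traj_eq]
  rfl

lemma fin_DZ (N : ℕ) : DZ (Set.Iio N) := by
  unfold DZ
  have h1 : Tendsto (fun x : ℕ => (N : ℝ) / x) atTop (𝓝 0) := tendsto_const_div_atTop_nhds_zero_nat _
  refine squeeze_zero (fun x => by positivity) (fun x => ?_) h1
  apply div_le_div_of_nonneg_right _ (Nat.cast_nonneg _)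
  apply Nat.cast_le.2
  refine (Set.ncard_le_ncard Set.inter_subset_right (Set.finite_Iio N)).trans (le_of_eq ?_)
  rw [← Finset.coe_Iio, Set.ncard_coe_finset, Nat.card_Iio]

lemma log_ratio : (2 : ℝ) / Real.log (16 / 9) = 1 / Real.log (4 / 3) := by
  have h : Real.log (16 / 9) = 2 * Real.log (4 / 3) := by
    rw [show (16 / 9 : ℝ) = (4 / 3) ^ 2 by norm_num, Real.log_pow]
    norm_num
  have hl0 : 0 < Real.log (4 / 3) := Real.log_pos (by norm_num)
  rw [h]
  field_simp

/-- from integers to real numbers -/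
lemma to_real {g : ℕ → ℝ} {c : ℝ} (h : Tendsto (fun n : ℕ => 2 / (n : ℝ) * g n / Real.log n) atTop (𝓝 c)) :
    Tendsto (fun x : ℝ => 2 / x * g ⌊x⌋₊ / Real.log x) atTop (𝓝 c) := by
  have h1 : Tendsto (fun x : ℝ => ⌊x⌋₊) atTop atTop := tendsto_nat_floor_atTop
  have h2 := h.comp h1
  have h3 : Tendsto (fun x : ℝ => (⌊x⌋₊ : ℝ) / x) atTop (𝓝 1) := tendsto_nat_floor_div_atTop
  have h4 : Tendsto (fun x : ℝ => Real.log ((⌊x⌋₊ : ℝ) / x)) atTop (𝓝 (Real.log 1)) :=
    h3.log (by norm_num)
  rw [Real.log_one] at h4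
  have h5 : Tendsto (fun x : ℝ => 1 + Real.log ((⌊x⌋₊ : ℝ) / x) / Real.log x) atTop (𝓝 (1 + 0)) :=
    (h4.div_atTop Real.tendsto_log_atTop).const_add 1
  rw [add_zero] at h5
  have h6 := (h2.mul h3).mul h5
  rw [mul_one, mul_one] at h6
  refine h6.congr' ?_
  filter_upwards [eventually_ge_atTop 3] with x hx
  have hx0 : (0 : ℝ) < x := by linarith
  have hfl : 2 ≤ ⌊x⌋₊ := Nat.le_floor (by norm_num; linarith)
  have hf0 : (2 : ℝ) ≤ (⌊x⌋₊ : ℝ) := by exact_mod_cast hfl
  have hl1 : Real.log x ≠ 0 := (Real.log_pos (by linarith)).ne'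
  have hl2 : Real.log (⌊x⌋₊ : ℝ) ≠ 0 := (Real.log_pos (by linarith)).ne'
  simp only [Function.comp_apply]
  rw [Real.log_div (by linarith) hx0.ne']
  have hf1 : (⌊x⌋₊ : ℝ) ≠ 0 := by linarith
  field_simp
  ring

/-- **The average height in random Collatz maps.**  Let `(ℱ n)` be a filtration and `B n ∈ ℱ n` events
(`n` goes up) with `P(B (n+1) | ℱ n) → 1/2` almost surely.  Then almost surely every trajectory is finite,
the height of `n` is asymptotic to `2 log n / log (16/9)` outside a set of density zero, and the average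
order `H(x)` is asymptotic to `2 log x / log (16/9)`. -/
theorem result {Ω : Type} {m0 : MeasurableSpace Ω} (μ : Measure Ω) [IsProbabilityMeasure μ]
    (ℱ : Filtration ℕ m0) (B : ℕ → Set Ω) (hB : ∀ n, MeasurableSet[ℱ n] (B n))
    (hd : ∀ᵐ ω ∂μ, Tendsto (fun n : ℕ => (μ[(B (n + 1)).indicator (fun _ => (1 : ℝ)) | ℱ n]) ω) atTop (𝓝 (1 / 2))) :
    ∀ᵐ ω ∂μ, (∀ n, (traj {k | ω ∈ B k} n).Finite) ∧
      (∀ ε : ℝ, 0 < ε → Tendsto (fun x : ℕ => ((Set.Icc 1 x ∩ {n : ℕ | ε * Real.log n <
        |(height {k | ω ∈ B k} n : ℝ) - 2 * Real.log n / Real.log (16 / 9)|}).ncard : ℝ) / x) atTop (𝓝 0)) ∧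
      Tendsto (fun x : ℝ => HH {k | ω ∈ B k} x / (2 * Real.log x / Real.log (16 / 9))) atTop (𝓝 1) := by
  classical
  have hl0 : 0 < Real.log (4 / 3) := Real.log_pos (by norm_num)
  have hl1 : 0 < Real.log (16 / 9) := Real.log_pos (by norm_num)
  filter_upwards [all_finite (μ := μ) (ℱ := ℱ) hB hd, avg_height (μ := μ) (ℱ := ℱ) hB hd] with ω g1 g2
  obtain ⟨g2, g3⟩ := g2
  refine ⟨fun n => by rw [traj_eq]; exact g1 n, ?_, ?_⟩
  · intro ε hε
    obtain ⟨E, hE, h1⟩ := g2 ε hε
    obtain ⟨N, hN⟩ := eventually_atTop.1 h1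
    refine (hE.union (fin_DZ N)).mono ?_
    intro n hn
    by_contra hcon
    rw [Set.mem_union, not_or] at hcon
    have h2 := hN n (by
      have := hcon.2
      rw [Set.mem_Iio] at this
      omega) hcon.1
    have h3 : ε * Real.log n < |(height {k | ω ∈ B k} n : ℝ) - 2 * Real.log n / Real.log (16 / 9)| := hn
    rw [height_eq, mul_div_right_comm, log_ratio] at h3
    linarith
  · have h1 := to_real (g := fun n => ∑ m ∈ (Finset.Icc 1 n).filter (· ∈ {n | ω ∈ B n}), (hgt B ω m : ℝ)) g3
    have h2 := h1.mul_const (Real.log (16 / 9) / 2)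
    have e : 1 / Real.log (4 / 3) * (Real.log (16 / 9) / 2) = 1 := by
      rw [← log_ratio]
      field_simp
    rw [e] at h2
    refine h2.congr fun x => ?_
    have e2 : HH {k | ω ∈ B k} x =
        2 / x * ∑ m ∈ (Finset.Icc 1 ⌊x⌋₊).filter (· ∈ {n | ω ∈ B n}), (hgt B ω m : ℝ) := by
      unfold HH
      simp only [height_eq]
    rw [e2]
    generalize (2 / x * ∑ m ∈ (Finset.Icc 1 ⌊x⌋₊).filter (· ∈ {n | ω ∈ B n}), (hgt B ω m : ℝ)) = W
    rw [div_div_eq_mul_div]
    ring

end Pool.Agent.Results.MP_2b866c_nt.RandomMaps
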